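import Mathlib
import Pool.Agent.H705R2.ABC2.Main2

namespace Pool.Agent.Results.MP_4ab349_nt.FewExceptions

/-- the radical: product of the distinct primes dividing `n` -/
def radical (n : ℕ) : ℕ := ∏ p ∈ n.primeFactors, p

/-- the abc-triples `(a, b, c)` (positive, coprime, `a + b = c`) with `c ≤ X` which violate
`rad (abc) > c ^ (1 - 1 / √(log c))` -/
def Violations (X : ℕ) : Set (ℕ × ℕ × ℕ) :=
  {t | 0 < t.1 ∧ 0 < t.2.1 ∧ Nat.Coprime t.1 t.2.1 ∧ t.1 + t.2.1 = t.2.2 ∧ t.2.2 ≤ X ∧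
    (radical (t.1 * t.2.1 * t.2.2) : ℝ) ≤
      (t.2.2 : ℝ) ^ (1 - 1 / Real.sqrt (Real.log (t.2.2 : ℝ)))}

/-- For every `ε > 0` there is `C` such that for every `X ≥ 1` at most `C * X ^ (6/11 + ε)`
abc-triples with `c ≤ X` violate `rad (abc) > c ^ (1 - 1 / √(log c))`. -/
theorem result (ε : ℝ) (hε : 0 < ε) :
    ∃ C : ℝ, ∀ X : ℕ, 1 ≤ X →
      (Violations X).Finite ∧ ((Violations X).ncard : ℝ) ≤ C * (X : ℝ) ^ (6 / 11 + ε) := by
  obtain ⟨C, hC⟩ := Pool.Agent.H705R2.ABC2.count_B 1 1 ε hε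
  refine ⟨C, fun X hX => ?_⟩
  have hfin := Pool.Agent.H705R2.ABC2.excB_finite 1 1 X
  have hsub : Violations X ⊆ Pool.Agent.H705R2.ABC2.ExcB 1 1 X := by
    rintro ⟨a, b, c⟩ ⟨ha, hb, hab, habc, hc, hr⟩
    simp only at ha hb hab habc hc hr
    refine ⟨ha, hb, hab, habc, hc, ?_⟩
    have hc1 : (1 : ℝ) ≤ (c : ℝ) := by
      have : 1 ≤ c := by omega
      exact_mod_cast this
    have h1 : (c : ℝ) ^ (1 - 1 / Real.sqrt (Real.log (c : ℝ))) ≤ (c : ℝ) ^ (1 : ℝ) := by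
      apply Real.rpow_le_rpow_of_exponent_le hc1
      have : 0 ≤ 1 / Real.sqrt (Real.log (c : ℝ)) := by positivity
      linarith
    calc (Pool.Agent.H785R2.ABC.rad (a * b * c) : ℝ)
        ≤ (c : ℝ) ^ (1 - 1 / Real.sqrt (Real.log (c : ℝ))) := hr
      _ ≤ (c : ℝ) ^ (1 : ℝ) := h1
      _ = 1 * (c : ℝ) ^ (1 : ℝ) := (one_mul _).symm
  refine ⟨hfin.subset hsub, ?_⟩
  have h3 := hC X hX
  have h4 : ((Violations X).ncard : ℝ) ≤
      ((Pool.Agent.H705R2.ABC2.ExcB 1 1 X).ncard : ℝ) := by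
    exact_mod_cast Set.ncard_le_ncard hsub hfin
  have h5 : (6 / 11 + max ((1 : ℝ) - 1) 0 + ε) = 6 / 11 + ε := by norm_num
  rw [h5] at h3
  exact h4.trans h3

end Pool.Agent.Results.MP_4ab349_nt.FewExceptions
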