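import Mathlib
import Pool.Agent.H374R2.Z.Glue2

/-!
For almost all positive integers `n` every abc-triple (of any height) with `n ∣ a b c` has
`rad (a b c) > n ^ (1 + δ)`.
-/

namespace Pool.Agent.Results.MP_4ab349_nt.Multiples

theorem result : ∀ ε : ℝ, 0 < ε → ∃ δ : ℝ, 0 < δ ∧ ∃ X₀ : ℕ, ∀ X : ℕ, X₀ ≤ X →
    (({n : ℕ | 0 < n ∧ n ≤ X ∧ ∃ a b c : ℕ, 0 < a ∧ 0 < b ∧ a + b = c ∧ Nat.gcd a b = 1 ∧
      n ∣ a * b * c ∧ ((∏ p ∈ (a * b * c).primeFactors, p : ℕ) : ℝ) ≤ (n : ℝ) ^ (1 + δ)}.ncard : ℕ)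
      : ℝ) ≤ ε * X := by
  intro ε hε
  obtain ⟨δ, hδ, X₀, h⟩ := Pool.Agent.H374R2.Z.robust ε hε
  refine ⟨δ, hδ, X₀, fun X hX => ?_⟩
  refine le_trans (le_of_eq ?_) (h X hX)
  congr 2
  ext n
  simp only [Set.mem_ofPred_eq, Pool.Agent.H374R2.Z.rad, Nat.coprime_iff_gcd_eq_one]
  constructor
  · rintro ⟨h0, h1, a, b, c, ha, hb, rfl, hg, hd, hr⟩
    exact ⟨h0, h1, a, b, ha, hb, hg, hd, hr⟩
  · rintro ⟨h0, h1, a, b, ha, hb, hg, hd, hr⟩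
    exact ⟨h0, h1, a, b, a + b, ha, hb, rfl, hg, hd, hr⟩

end Pool.Agent.Results.MP_4ab349_nt.Multiples
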