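import Mathlib
import Pool.Agent.H374R2.Z.Glue2

/-!
For almost all positive integers `B` every abc-triple (of any height) with a term `B ^ y`, `y ≥ 1`,
has the property that the product of the two other terms has a radical larger than `B ^ (1 - ε)`.
-/

namespace Pool.Agent.Results.MP_4ab349_nt.PowerTerm

theorem result : ∀ ε : ℝ, 0 < ε → ∃ N₀ : ℕ, ∀ N : ℕ, N₀ ≤ N →
    (({B : ℕ | 0 < B ∧ B ≤ N ∧ ∃ y s t : ℕ, 0 < y ∧ 0 < s ∧ 0 < t ∧ Nat.gcd s t = 1 ∧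
      (s + t = B ^ y ∨ s + B ^ y = t) ∧
      ((∏ p ∈ (s * t).primeFactors, p : ℕ) : ℝ) ≤ (N : ℝ) ^ (1 - ε)}.ncard : ℕ) : ℝ) ≤ ε * N := by
  intro ε hε
  obtain ⟨N₀, h⟩ := Pool.Agent.H374R2.Z.powers ε hε
  refine ⟨N₀, fun N hN => ?_⟩
  refine le_trans (le_of_eq ?_) (h N hN)
  congr 2

end Pool.Agent.Results.MP_4ab349_nt.PowerTerm
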