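import Mathlib
import Pool.Agent.H374R2.Z.Glue

/-!
Almost no positive integer is the radical of an abc triple: for every `ε > 0` there are
`O(X / (log X) ^ (1 - ε))` integers `n ≤ X` such that `rad (a b c) = n` for some coprime positive
integers `a + b = c`, of any height.
-/

namespace Pool.Agent.Results.MP_4ab349_nt.RadicalDensity

theorem result : ∀ ε : ℝ, 0 < ε → ∃ C : ℝ, ∀ X : ℕ, 2 ≤ X →
    (({n : ℕ | n ≤ X ∧ ∃ a b c : ℕ, 0 < a ∧ 0 < b ∧ a + b = c ∧ Nat.gcd a b = 1 ∧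
      ∏ p ∈ (a * b * c).primeFactors, p = n}.ncard : ℕ) : ℝ) ≤
      C * X / Real.log X ^ (1 - ε) := by
  intro ε hε
  obtain ⟨C, -, hC⟩ := Pool.Agent.H374R2.Z.final hε
  refine ⟨C, fun X hX => ?_⟩
  refine le_trans (le_of_eq ?_) (hC X hX)
  congr 2
  ext n
  simp only [Set.mem_ofPred_eq, Pool.Agent.H374R2.Z.IsRad, Pool.Agent.H374R2.Z.rad,
    Nat.coprime_iff_gcd_eq_one]
  constructor
  · rintro ⟨h, a, b, c, ha, hb, rfl, hg, hr⟩
    exact ⟨h, a, b, ha, hb, hg, hr⟩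
  · rintro ⟨h, a, b, ha, hb, hg, hr⟩
    exact ⟨h, a, b, a + b, ha, hb, rfl, hg, hr⟩

end Pool.Agent.Results.MP_4ab349_nt.RadicalDensity
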